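import Pool.Agent.E8helper23.SG.Stm
import Pool.Agent.E8helper63.SZ.Pos
import Pool.Agent.Helper601.Selberg2
import Pool.Agent.Helper601.BT

/-!
# The Selberg sieve with the weights `tau` (project SG, MP_92f640_nt)
-/

set_option autoImplicit false

namespace Pool.Agent.E8helper38.SG

open Finset Nat ArithmeticFunction BoundingSieve
open Pool.Agent.E8helper22.SZ (RealPrim cv tau)
open Pool.Agent.E8helper23.SG
open Pool.Agent.Helper601

theorem cv_cases {q : ℕ} {χ : DirichletCharacter ℂ q} (h : RealPrim q χ) (p : ℕ) :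
    cv χ p = 0 ∨ cv χ p = 1 ∨ cv χ p = -1 := by
  unfold cv
  rcases h.quad (p : ZMod q) with h | h | h
  · left; rw [h]; simp
  · right; left; rw [h]; simp
  · right; right; rw [h]; simp

/-- the density of the sieve at a prime -/
noncomputable def nup {q : ℕ} (χ : DirichletCharacter ℂ q) (p : ℕ) : ℝ :=
  (1 + cv χ p - cv χ p / p) / p

theorem nup_ge {q : ℕ} {χ : DirichletCharacter ℂ q} (h : RealPrim q χ) {p : ℕ} (hp : p.Prime) :
    1 / (p : ℝ) ^ 2 ≤ nup χ p := by
  have hp1 : (1 : ℝ) < p := by exact_mod_cast hp.one_lt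
  have hp0 : (0 : ℝ) < p := by linarith
  have hinv : 1 / (p : ℝ) ≤ 1 := by
    rw [div_le_one hp0]; exact hp1.le
  unfold nup
  have : 1 / (p : ℝ) ^ 2 = (1 / (p : ℝ)) / p := by
    field_simp
  rw [this]
  apply div_le_div_of_nonneg_right _ hp0.le
  rcases cv_cases h p with h | h | h <;> rw [h]
  · simp only [zero_div]; linarith
  · linarith
  · ring_nf; ring_nf at hinv; linarith

theorem one_sub_nup {q : ℕ} {χ : DirichletCharacter ℂ q} {p : ℕ} (hp : p.Prime) :
    1 - nup χ p = (1 - 1 / (p : ℝ)) * (1 - cv χ p / p) := by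
  have hp0 : (p : ℝ) ≠ 0 := by exact_mod_cast hp.ne_zero
  unfold nup
  field_simp
  ring

theorem nup_lt_one {q : ℕ} {χ : DirichletCharacter ℂ q} (h : RealPrim q χ) {p : ℕ}
    (hp : p.Prime) : nup χ p < 1 := by
  have hp1 : (1 : ℝ) < p := by exact_mod_cast hp.one_lt
  have hp0 : (0 : ℝ) < p := by linarith
  have hinv : 1 / (p : ℝ) < 1 := by
    rw [div_lt_one hp0]; exact hp1
  have hinv0 : 0 < 1 / (p : ℝ) := by positivity
  have h1 := one_sub_nup (χ := χ) hp
  have h2 : 0 < (1 - 1 / (p : ℝ)) * (1 - cv χ p / p) := by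
    apply mul_pos (by linarith)
    rcases cv_cases h p with h | h | h <;> rw [h]
    · simp
    · linarith
    · rw [neg_div]; linarith
  linarith

theorem nup_pos {q : ℕ} {χ : DirichletCharacter ℂ q} (h : RealPrim q χ) {p : ℕ}
    (hp : p.Prime) : 0 < nup χ p := by
  have hp0 : (0 : ℝ) < p := by exact_mod_cast hp.pos
  exact lt_of_lt_of_le (by positivity) (nup_ge h hp)

/-- the density as an arithmetic function -/
noncomputable def nuAF {q : ℕ} (χ : DirichletCharacter ℂ q) : ArithmeticFunction ℝ :=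
  ArithmeticFunction.prodPrimeFactors (nup χ)

theorem nuAF_apply {q : ℕ} (χ : DirichletCharacter ℂ q) {d : ℕ} (hd : d ≠ 0) :
    nuAF χ d = ∏ p ∈ d.primeFactors, nup χ p := by
  unfold nuAF
  rw [ArithmeticFunction.prodPrimeFactors_apply hd]

theorem nuAF_prime {q : ℕ} (χ : DirichletCharacter ℂ q) {p : ℕ} (hp : p.Prime) :
    nuAF χ p = nup χ p := by
  rw [nuAF_apply χ hp.ne_zero, hp.primeFactors, Finset.prod_singleton]

theorem nuAF_mult {q : ℕ} (χ : DirichletCharacter ℂ q) : (nuAF χ).IsMultiplicative :=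
  ArithmeticFunction.IsMultiplicative.prodPrimeFactors _

theorem tau_zero {q : ℕ} (χ : DirichletCharacter ℂ q) : tau χ 0 = 0 := by
  simp [tau]

theorem tau_one {q : ℕ} (χ : DirichletCharacter ℂ q) : tau χ 1 = 1 := by
  simp [tau, cv]

theorem tau_nonneg {q : ℕ} {χ : DirichletCharacter ℂ q} (hq : 0 < q) (h : RealPrim q χ) (n : ℕ) :
    0 ≤ tau χ n := by
  rcases Nat.eq_zero_or_pos n with rfl | hn
  · rw [tau_zero]
  · exact (Pool.Agent.E8helper63.SZ.t_POS q χ hq h n hn).1

theorem T_pos {q : ℕ} {χ : DirichletCharacter ℂ q} (hq : 0 < q) (h : RealPrim q χ) {R : ℕ}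
    (hR : 0 < R) : 0 < T χ R := by
  unfold T
  apply Finset.sum_pos'
  · intro n _
    exact div_nonneg (tau_nonneg hq h n) (Nat.cast_nonneg n)
  · refine ⟨1, Finset.mem_Icc.mpr ⟨le_rfl, hR⟩, ?_⟩
    rw [tau_one]; norm_num

/-- the sieve -/
noncomputable def tauSieve {q : ℕ} [NeZero q] (χ : DirichletCharacter ℂ q) (hq : 0 < q)
    (h : RealPrim q χ) (x R : ℕ) : BoundingSieve where
  support := Finset.Icc 1 x
  prodPrimes := PP 1 R
  prodPrimes_squarefree := PP_squarefree 1 R
  weights := fun n => tau χ n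
  weights_nonneg := fun n => tau_nonneg hq h n
  totalMass := x * (χ.LFunction 1).re
  nu := nuAF χ
  nu_mult := nuAF_mult χ
  nu_pos_of_prime := by
    intro p hp _
    rw [nuAF_prime χ hp]
    exact nup_pos h hp
  nu_lt_one_of_prime := by
    intro p hp _
    rw [nuAF_prime χ hp]
    exact nup_lt_one h hp

theorem tauSieve_rem {q : ℕ} [NeZero q] (χ : DirichletCharacter ℂ q) (hq1 : 1 < q) (hq : 0 < q)
    (h : RealPrim q χ) (hDIV : S_DIV) {x R d : ℕ} (hd : d ∣ PP 1 R) (hdR : (d : ℝ) ≤ (R : ℝ) ^ 2) :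
    |(tauSieve χ hq h x R).rem d| ≤ 8 * q * (R : ℝ) ^ 4 * Real.sqrt x := by
  have hd0 : d ≠ 0 := ne_zero_of_dvd_ne_zero (PP_squarefree 1 R).ne_zero hd
  have hdpos : 0 < d := Nat.pos_of_ne_zero hd0
  have hd' : (0 : ℝ) < d := by exact_mod_cast hdpos
  have hd1 : (1 : ℝ) ≤ d := by exact_mod_cast hdpos
  have hsq : Squarefree d := (PP_squarefree 1 R).squarefree_of_dvd hd
  have h1 := hDIV q χ hq1 h d hsq ((x : ℝ) / d) (by positivity)
  have hfl : ⌊(x : ℝ) / d⌋₊ = x / d := by
    rw [Nat.floor_div_natCast, Nat.floor_natCast]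
  rw [hfl] at h1
  have hrem : (tauSieve χ hq h x R).rem d = ∑ m ∈ Finset.Icc 1 (x / d), tau χ (d * m) -
      (x : ℝ) / d * (χ.LFunction 1).re * ∏ p ∈ d.primeFactors, (1 + cv χ p - cv χ p / p) := by
    simp only [BoundingSieve.rem, BoundingSieve.multSum, tauSieve]
    congr 1
    · rw [← Finset.sum_filter]
      symm
      apply Finset.sum_bij' (i := fun m _ => d * m) (j := fun n _ => n / d)
      · intro m hm
        rw [Finset.mem_Icc] at hm
        rw [Finset.mem_filter, Finset.mem_Icc]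
        refine ⟨⟨Nat.mul_pos hdpos hm.1, ?_⟩, Dvd.intro _ rfl⟩
        rw [mul_comm]
        exact (Nat.le_div_iff_mul_le hdpos).mp hm.2
      · intro n hn
        rw [Finset.mem_filter, Finset.mem_Icc] at hn
        rw [Finset.mem_Icc]
        exact ⟨Nat.div_pos (Nat.le_of_dvd hn.1.1 hn.2) hdpos, Nat.div_le_div_right hn.1.2⟩
      · intro m _
        exact Nat.mul_div_cancel_left m hdpos
      · intro n hn
        rw [Finset.mem_filter] at hn
        exact Nat.mul_div_cancel' hn.2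
      · intro m _
        rfl
    · rw [nuAF_apply χ hd0]
      have h2 : ∏ p ∈ d.primeFactors, nup χ p =
          (∏ p ∈ d.primeFactors, (1 + cv χ p - cv χ p / p)) / d := by
        unfold nup
        rw [Finset.prod_div_distrib]
        congr 1
        rw [← Nat.cast_prod, Nat.prod_primeFactors_of_squarefree hsq]
      rw [h2]
      ring
  rw [hrem]
  refine h1.trans ?_
  have h3 : Real.sqrt ((x : ℝ) / d) ≤ Real.sqrt x := by
    apply Real.sqrt_le_sqrt
    exact div_le_self (Nat.cast_nonneg x) hd1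
  have h4 : (d : ℝ) ^ 2 ≤ (R : ℝ) ^ 4 := by
    calc (d : ℝ) ^ 2 ≤ ((R : ℝ) ^ 2) ^ 2 := by gcongr
      _ = (R : ℝ) ^ 4 := by ring
  gcongr

theorem tauSieve_selS {q : ℕ} [NeZero q] (χ : DirichletCharacter ℂ q) (hq : 0 < q)
    (h : RealPrim q χ) (hH : S_HSUM) (x R : ℕ) :
    T χ R ≤ selS (tauSieve χ hq h x R) R := by
  refine (hH q χ hq h R).trans ?_
  unfold selS
  have h1 : ∀ l ∈ (Finset.Icc 1 R).filter Squarefree,
      ∏ p ∈ l.primeFactors, (1 / ((1 - 1 / (p : ℝ)) * (1 - cv χ p / p)) - 1) =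
      (tauSieve χ hq h x R).selbergTerms l := by
    intro l hl
    rw [Finset.mem_filter, Finset.mem_Icc] at hl
    have hl0 : l ≠ 0 := by omega
    rw [selbergTerms_apply]
    change _ = nuAF χ l * ∏ p ∈ l.primeFactors, (1 - nuAF χ p)⁻¹
    rw [nuAF_apply χ hl0, ← Finset.prod_mul_distrib]
    apply Finset.prod_congr rfl
    intro p hp
    have hpp := (Nat.mem_primeFactors.mp hp).1
    rw [nuAF_prime χ hpp, ← one_sub_nup hpp]
    have h2 : (1 : ℝ) - nup χ p ≠ 0 := by
      have := nup_lt_one h hpp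
      linarith
    field_simp
    ring
  rw [Finset.sum_congr rfl h1]
  apply Finset.sum_le_sum_of_subset_of_nonneg
  · intro l hl
    rw [Finset.mem_filter, Finset.mem_Icc] at hl
    rw [Finset.mem_filter, Nat.mem_divisors]
    exact ⟨⟨dvd_PP_of_squarefree hl.2 hl.1.2 (Nat.coprime_one_right l),
      (PP_squarefree 1 R).ne_zero⟩, by exact_mod_cast hl.1.2⟩
  · intro l hl _
    rw [Finset.mem_filter, Nat.mem_divisors] at hl
    exact (selbergTerms_pos (s := tauSieve χ hq h x R) hl.1.1).le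

theorem nuAF_inv_le {q : ℕ} {χ : DirichletCharacter ℂ q} (h : RealPrim q χ) {d : ℕ}
    (hd : Squarefree d) : (nuAF χ d)⁻¹ ≤ (d : ℝ) ^ 2 := by
  have hd0 : d ≠ 0 := hd.ne_zero
  rw [nuAF_apply χ hd0]
  have h1 : (d : ℝ) ^ 2 = ∏ p ∈ d.primeFactors, (p : ℝ) ^ 2 := by
    rw [Finset.prod_pow, ← Nat.cast_prod, Nat.prod_primeFactors_of_squarefree hd]
  rw [h1, ← Finset.prod_inv_distrib]
  apply Finset.prod_le_prod
  · intro p hp
    have hpp := (Nat.mem_primeFactors.mp hp).1
    exact (inv_pos.mpr (nup_pos h hpp)).le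
  · intro p hp
    have hpp := (Nat.mem_primeFactors.mp hp).1
    have hp0 : (0 : ℝ) < p := by exact_mod_cast hpp.pos
    have h2 := nup_ge h hpp
    rw [inv_le_comm₀ (nup_pos h hpp) (by positivity), ← one_div]
    exact h2

theorem t_SIEVE (h1 : S_DIV) (h2 : S_HSUM) : S_SIEVE := by
  intro q _ χ hq1 h R x hR hx
  have hq : 0 < q := by omega
  have hR1 : (1 : ℝ) ≤ R := by exact_mod_cast hR
  have hT := T_pos hq h hR
  have hE : 0 ≤ 8 * q * (R : ℝ) ^ 4 * Real.sqrt x := by positivity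
  have hsel := siftedSum_le_selberg' (tauSieve χ hq h x R) (R : ℝ) hR1
    (8 * q * (R : ℝ) ^ 4 * Real.sqrt x) hE
    (fun d hd hdR => tauSieve_rem χ hq1 hq h h1 hd hdR)
  have hS := tauSieve_selS χ hq h h2 x R
  -- main term
  have hmain : (tauSieve χ hq h x R).totalMass / selS (tauSieve χ hq h x R) R ≤
      x * ‖χ.LFunction 1‖ / T χ R := by
    change (x : ℝ) * (χ.LFunction 1).re / selS (tauSieve χ hq h x R) R ≤ _
    have hS0 : 0 < selS (tauSieve χ hq h x R) R := lt_of_lt_of_le hT hS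
    calc (x : ℝ) * (χ.LFunction 1).re / selS (tauSieve χ hq h x R) R ≤
        x * ‖χ.LFunction 1‖ / selS (tauSieve χ hq h x R) R := by
          apply div_le_div_of_nonneg_right _ hS0.le
          exact mul_le_mul_of_nonneg_left (Complex.re_le_norm _) (Nat.cast_nonneg x)
      _ ≤ x * ‖χ.LFunction 1‖ / T χ R :=
          div_le_div_of_nonneg_left (by positivity) hT hS
  -- error term
  have hsum : (∑ d ∈ (divisors (tauSieve χ hq h x R).prodPrimes).filter
      (fun d : ℕ => (d : ℝ) ≤ R), ((tauSieve χ hq h x R).nu d)⁻¹) ≤ (R : ℝ) ^ 3 := by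
    have h6 : (divisors (tauSieve χ hq h x R).prodPrimes).filter (fun d : ℕ => (d : ℝ) ≤ R) ⊆
        Finset.Icc 1 R := by
      intro d hd
      rw [Finset.mem_filter, Nat.mem_divisors] at hd
      rw [Finset.mem_Icc]
      refine ⟨Nat.pos_of_ne_zero (ne_zero_of_dvd_ne_zero hd.1.2 hd.1.1), by exact_mod_cast hd.2⟩
    calc (∑ d ∈ (divisors (tauSieve χ hq h x R).prodPrimes).filter
          (fun d : ℕ => (d : ℝ) ≤ R), ((tauSieve χ hq h x R).nu d)⁻¹)
        ≤ ∑ d ∈ (divisors (tauSieve χ hq h x R).prodPrimes).filter (fun d : ℕ => (d : ℝ) ≤ R),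
          (d : ℝ) ^ 2 := by
          apply Finset.sum_le_sum
          intro d hd
          rw [Finset.mem_filter, Nat.mem_divisors] at hd
          exact nuAF_inv_le h ((PP_squarefree 1 R).squarefree_of_dvd hd.1.1)
      _ ≤ ∑ d ∈ Finset.Icc 1 R, (d : ℝ) ^ 2 :=
          Finset.sum_le_sum_of_subset_of_nonneg h6 (fun _ _ _ => by positivity)
      _ ≤ ∑ d ∈ Finset.Icc 1 R, (R : ℝ) ^ 2 := by
          apply Finset.sum_le_sum
          intro d hd
          have : (d : ℝ) ≤ R := by exact_mod_cast (Finset.mem_Icc.mp hd).2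
          gcongr
      _ = (R : ℝ) ^ 3 := by simp; ring
  have hsum0 : 0 ≤ (∑ d ∈ (divisors (tauSieve χ hq h x R).prodPrimes).filter
      (fun d : ℕ => (d : ℝ) ≤ R), ((tauSieve χ hq h x R).nu d)⁻¹) := by
    apply Finset.sum_nonneg
    intro d hd
    rw [Finset.mem_filter, Nat.mem_divisors] at hd
    exact (inv_pos.mpr (nu_pos_of_dvd_prodPrimes hd.1.1)).le
  have herr : 8 * q * (R : ℝ) ^ 4 * Real.sqrt x *
      (∑ d ∈ (divisors (tauSieve χ hq h x R).prodPrimes).filter
      (fun d : ℕ => (d : ℝ) ≤ R), ((tauSieve χ hq h x R).nu d)⁻¹) ^ 2 ≤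
      8 * q * (R : ℝ) ^ 10 * Real.sqrt x := by
    calc _ ≤ 8 * q * (R : ℝ) ^ 4 * Real.sqrt x * ((R : ℝ) ^ 3) ^ 2 := by gcongr
      _ = 8 * q * (R : ℝ) ^ 10 * Real.sqrt x := by ring
  -- the primes
  have hcard : ((Np χ x).card : ℝ) ≤ R + (tauSieve χ hq h x R).siftedSum := by
    have hsplit : Np χ x ⊆ Finset.Icc 1 R ∪ (Np χ x).filter (fun p => R < p) := by
      intro p hp
      rw [Finset.mem_union, Finset.mem_filter, Finset.mem_Icc]
      by_cases hpR : p ≤ R
      · left
        have := (Finset.mem_filter.mp hp).2.1.pos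
        exact ⟨this, hpR⟩
      · right
        exact ⟨hp, not_le.mp hpR⟩
    have hc1 : (Np χ x).card ≤ R + ((Np χ x).filter (fun p => R < p)).card := by
      refine (Finset.card_le_card hsplit).trans ((Finset.card_union_le _ _).trans ?_)
      simp
    have hc2 : (((Np χ x).filter (fun p => R < p)).card : ℝ) ≤
        (tauSieve χ hq h x R).siftedSum := by
      unfold BoundingSieve.siftedSum
      change _ ≤ ∑ d ∈ Finset.Icc 1 x, if Nat.Coprime (PP 1 R) d then tau χ d else 0
      rw [← Finset.sum_filter]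
      calc (((Np χ x).filter (fun p => R < p)).card : ℝ) =
          ∑ p ∈ (Np χ x).filter (fun p => R < p), (1 : ℝ) := by simp
        _ ≤ ∑ p ∈ (Np χ x).filter (fun p => R < p), tau χ p := by
            apply Finset.sum_le_sum
            intro p hp
            rw [Finset.mem_filter] at hp
            have hp1 := (Finset.mem_filter.mp hp.1).2
            exact (Pool.Agent.E8helper63.SZ.t_POS q χ hq h p hp1.1.pos).2 hp1.1 hp1.2
        _ ≤ ∑ p ∈ (Finset.Icc 1 x).filter (fun d => Nat.Coprime (PP 1 R) d), tau χ p := by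
            apply Finset.sum_le_sum_of_subset_of_nonneg
            · intro p hp
              rw [Finset.mem_filter] at hp
              have hp1 := Finset.mem_filter.mp hp.1
              rw [Finset.mem_filter]
              refine ⟨hp1.1, ?_⟩
              rw [Nat.coprime_comm, hp1.2.1.coprime_iff_not_dvd, prime_dvd_PP hp1.2.1]
              omega
            · intro p _ _
              exact tau_nonneg hq h p
    have hc1' : ((Np χ x).card : ℝ) ≤ R + (((Np χ x).filter (fun p => R < p)).card : ℝ) := by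
      exact_mod_cast hc1
    linarith
  linarith

end Pool.Agent.E8helper38.SG
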